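import Pool.Agent.H32.FE

namespace Pool.Agent.Results.MP_31068f_lc.LevelTwo

open Pool.Agent.H32.FE

theorem result : ∃ F G : Ultrafilter ℕ+, InL F ∧ InL G ∧ Fe F G ∧ ¬ MDvd F G :=
  ⟨F0, G0, ⟨1, L1⟩, ⟨2, L2⟩, fe, fun h => (dvd_G0 h).elim (ne1 L1) fun e => not_fe (e ▸ fun B hB =>
    ⟨B, hB, fun _ s _ => ⟨1, fun a ha => by simpa using s ha⟩⟩)⟩

end Pool.Agent.Results.MP_31068f_lc.LevelTwo
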